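import Pool.Agent.H88.CR.Targets

/-!
Row SCA of the board cvr_modules (MP_479f73_an): the defect in a strictly convex space.
-/

set_option autoImplicit false

namespace Pool.Agent.H25.CVR

open Pool.Agent.H88.CR

theorem pf_SCA (𝕜 : Type) [RCLike 𝕜] : T_SCA 𝕜 := by
  intro F _ _ hS x y hD
  let _ : NormedSpace ℝ F := NormedSpace.restrictScalars ℝ 𝕜 F
  unfold Df at hD
  have h5 : ‖x + y‖ ≤ ‖x‖ + ‖y‖ := norm_add_le x y
  have hN : 0 ≤ ‖x + y‖ := norm_nonneg _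
  have ha : 0 ≤ ‖x‖ := norm_nonneg _
  have hb : 0 ≤ ‖y‖ := norm_nonneg _
  have h8 : ‖x + y‖ ^ 2 ≤ (‖x‖ + ‖y‖) ^ 2 := pow_le_pow_left₀ hN h5 2
  have h9 : (‖x‖ - ‖y‖) ^ 2 ≤ 0 := by nlinarith
  have h10 : ‖x‖ - ‖y‖ = 0 := by
    have : (‖x‖ - ‖y‖) ^ 2 = 0 := le_antisymm h9 (sq_nonneg _)
    exact pow_eq_zero_iff (two_ne_zero) |>.1 this
  have hxy : ‖y‖ = ‖x‖ := by linarith
  have h11 : (2 * ‖x‖) ^ 2 ≤ ‖x + y‖ ^ 2 := by
    rw [hxy] at hD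
    nlinarith
  have h12 : 2 * ‖x‖ ≤ ‖x + y‖ := le_of_sq_le_sq h11 hN
  have h13 : ‖x + y‖ = 2 * ‖x‖ := by linarith
  rcases ha.eq_or_lt with h0 | h0
  · have hx0 : x = 0 := norm_eq_zero.1 h0.symm
    have hy0 : y = 0 := norm_eq_zero.1 (by rw [hxy, ← h0])
    rw [hx0, hy0]
  · have hu : ‖(‖x‖⁻¹ : ℝ) • x‖ = 1 := by
      rw [norm_smul, Real.norm_of_nonneg (by positivity), inv_mul_cancel₀ h0.ne']
    have hv : ‖(‖x‖⁻¹ : ℝ) • y‖ = 1 := by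
      rw [norm_smul, Real.norm_of_nonneg (by positivity), hxy, inv_mul_cancel₀ h0.ne']
    have huv : ‖(‖x‖⁻¹ : ℝ) • x + (‖x‖⁻¹ : ℝ) • y‖ = 2 := by
      rw [← smul_add, norm_smul, Real.norm_of_nonneg (by positivity), h13]
      field_simp
    have h14 := hS _ _ hu hv huv
    have h15 : (‖x‖⁻¹ : ℝ) ≠ 0 := by positivity
    exact smul_right_injective F h15 h14

end Pool.Agent.H25.CVR
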