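import Pool.Agent.H88.CR.Targets

/-!
Row UCA of the board cvr_modules (MP_479f73_an): the defect in a uniformly convex space.
-/

set_option autoImplicit false

namespace Pool.Agent.H25.CVR

open Pool.Agent.H88.CR

theorem pf_UCA (𝕜 : Type) [RCLike 𝕜] : T_UCA 𝕜 := by
  intro F _ _ hU R ε hε
  let _ : NormedSpace ℝ F := NormedSpace.restrictScalars ℝ 𝕜 F
  have := hU
  have hR' : 0 < max R ε := lt_max_of_lt_right hε
  obtain ⟨d, hd, h⟩ := exists_forall_closed_ball_dist_add_le_two_sub F (div_pos hε hR')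
  obtain ⟨e, he0, he1, hed⟩ : ∃ e : ℝ, 0 < e ∧ e ≤ 1 ∧ e ≤ d :=
    ⟨min d 1, lt_min hd one_pos, min_le_right _ _, min_le_left _ _⟩
  have key : ∀ x y : F, ‖y‖ ≤ ‖x‖ → ‖x‖ ≤ R → ε ≤ ‖x - y‖ →
      e ^ 2 * ε ^ 2 / 64 ≤ Df x y := by
    intro x y hyx hxR hxy
    have h2 : ‖x - y‖ ≤ ‖x‖ + ‖y‖ := norm_sub_le x y
    have hr : ε / 2 ≤ ‖x‖ := by linarith
    have hr0 : 0 < ‖x‖ := by linarith
    have hu : ‖(‖x‖⁻¹ : ℝ) • x‖ ≤ 1 := by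
      rw [norm_smul, Real.norm_of_nonneg (by positivity), inv_mul_cancel₀ hr0.ne']
    have hv : ‖(‖x‖⁻¹ : ℝ) • y‖ ≤ 1 := by
      rw [norm_smul, Real.norm_of_nonneg (by positivity), inv_mul_le_iff₀ hr0]
      linarith
    have huv : ε / max R ε ≤ ‖(‖x‖⁻¹ : ℝ) • x - (‖x‖⁻¹ : ℝ) • y‖ := by
      rw [← smul_sub, norm_smul, Real.norm_of_nonneg (by positivity), div_eq_inv_mul]
      have h3 : (max R ε)⁻¹ ≤ ‖x‖⁻¹ := inv_anti₀ hr0 (hxR.trans (le_max_left _ _))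
      exact mul_le_mul h3 hxy hε.le (by positivity)
    have h4 := h hu hv huv
    rw [← smul_add, norm_smul, Real.norm_of_nonneg (by positivity), inv_mul_le_iff₀ hr0] at h4
    have h5 : ‖x + y‖ ≤ ‖x‖ + ‖y‖ := norm_add_le x y
    have hN : 0 ≤ ‖x + y‖ := norm_nonneg _
    have hb : 0 ≤ ‖y‖ := norm_nonneg _
    have h6 : ‖x + y‖ ≤ ‖x‖ * (2 - e) := h4.trans (by nlinarith)
    have hεr : ε ^ 2 ≤ 4 * ‖x‖ ^ 2 := by nlinarith
    unfold Df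
    rcases le_or_gt (e * ‖x‖ / 4) (‖x‖ - ‖y‖) with hs | hs
    · have h7 : (e * ‖x‖ / 4) ^ 2 ≤ (‖x‖ - ‖y‖) ^ 2 := by
        apply pow_le_pow_left₀ (by positivity) hs
      have h8 : ‖x + y‖ ^ 2 ≤ (‖x‖ + ‖y‖) ^ 2 := pow_le_pow_left₀ hN h5 2
      have h9 : e ^ 2 * ε ^ 2 ≤ e ^ 2 * (4 * ‖x‖ ^ 2) :=
        mul_le_mul_of_nonneg_left hεr (by positivity)
      nlinarith
    · have h7 : ‖x‖ * (2 - e / 4) ≤ ‖x‖ + ‖y‖ := by nlinarith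
      have h8 : (‖x‖ * (2 - e / 4)) ^ 2 ≤ (‖x‖ + ‖y‖) ^ 2 := by
        apply pow_le_pow_left₀ _ h7
        have : 0 ≤ 2 - e / 4 := by linarith
        positivity
      have h9 : ‖x + y‖ ^ 2 ≤ (‖x‖ * (2 - e)) ^ 2 := pow_le_pow_left₀ hN h6 2
      have h10 : (‖x‖ * (2 - e / 4)) ^ 2 - (‖x‖ * (2 - e)) ^ 2 =
          ‖x‖ ^ 2 * (e * (3 - 15 * e / 16)) := by ring
      have h11 : e ^ 2 * ε ^ 2 ≤ e ^ 2 * (4 * ‖x‖ ^ 2) :=
        mul_le_mul_of_nonneg_left hεr (by positivity)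
      have h12 : e ^ 2 ≤ e * (3 - 15 * e / 16) := by nlinarith
      have h13 : ‖x‖ ^ 2 * e ^ 2 ≤ ‖x‖ ^ 2 * (e * (3 - 15 * e / 16)) :=
        mul_le_mul_of_nonneg_left h12 (by positivity)
      have h14 : 0 ≤ (‖x‖ - ‖y‖) ^ 2 := sq_nonneg _
      have h15 : 0 ≤ ‖x‖ ^ 2 * e ^ 2 := by positivity
      nlinarith
  refine ⟨e ^ 2 * ε ^ 2 / 64, by positivity, fun x y hx hy hD => ?_⟩
  by_contra hxy
  rw [not_lt] at hxy
  rcases le_total ‖y‖ ‖x‖ with h1 | h1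
  · exact absurd hD (not_lt.2 (key x y h1 hx hxy))
  · have h2 := key y x h1 hy (by rwa [norm_sub_rev])
    have h3 : Df y x = Df x y := by
      unfold Df
      rw [add_comm y x]
      ring
    rw [h3] at h2
    exact absurd hD (not_lt.2 h2)

end Pool.Agent.H25.CVR
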